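import Pool.Agent.H98.RFC.Targets

/-!
# Random field Ising model with finite range: `psi` is monotone and between 0 and 1
-/

set_option autoImplicit false

namespace Pool.Agent.H39.RFC

open Pool.Agent.H98.RFC

theorem conn_mono {D D' : Set Site} (h : D ⊆ D') {Λ : Finset Site} {ω : Finset (Site × Site)}
    {x : Site} (hc : conn D Λ ω x) : conn D' Λ ω x := by
  obtain ⟨y, hy, hr⟩ := hc
  refine ⟨y, hy, ?_⟩
  clear hy
  induction hr with
  | refl => exact Relation.ReflTransGen.refl
  | tail _ hab ih =>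
    exact ih.tail ⟨hab.1, h hab.2.1, h hab.2.2.1, hab.2.2.2⟩

theorem bw_nonneg {P ω : Finset (Site × Site)} {q : Site × Site → ℝ}
    (hq : ∀ e, 0 ≤ q e ∧ q e ≤ 1) : 0 ≤ bw P q ω := by
  unfold bw
  refine mul_nonneg (Finset.prod_nonneg fun e _ => ?_) (Finset.prod_nonneg fun e _ => ?_)
  · linarith [(hq e).2]
  · exact (hq e).1

theorem bw_sum (P : Finset (Site × Site)) (q : Site × Site → ℝ) :
    ∑ ω ∈ P.powerset, bw P q ω = 1 := by
  have h := Finset.prod_add (fun e => 1 - q e) q P
  have h1 : ∏ e ∈ P, (1 - q e + q e) = 1 := by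
    refine Finset.prod_eq_one fun e _ => ?_
    ring
  rw [h1] at h
  rw [h]
  exact Finset.sum_congr rfl fun ω _ => rfl

theorem pf_PM : T_PM := by
  intro q P D D' Λ x hq hD
  classical
  refine ⟨?_, ?_, ?_⟩
  · unfold psi
    refine Finset.sum_nonneg fun ω _ => mul_nonneg (bw_nonneg hq) ?_
    split_ifs <;> norm_num
  · unfold psi
    refine Finset.sum_le_sum fun ω _ => mul_le_mul_of_nonneg_left ?_ (bw_nonneg hq)
    by_cases h : conn D Λ ω x
    · rw [if_pos h, if_pos (conn_mono hD h)]
    · rw [if_neg h]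
      split_ifs <;> norm_num
  · have h1 : psi q P D' Λ x ≤ ∑ ω ∈ P.powerset, bw P q ω := by
      unfold psi
      refine Finset.sum_le_sum fun ω _ => ?_
      have := bw_nonneg (P := P) (ω := ω) hq
      split_ifs
      · rw [mul_one]
      · rw [mul_zero]
        exact this
    rw [bw_sum] at h1
    exact h1

end Pool.Agent.H39.RFC
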